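import Mathlib

set_option autoImplicit false

namespace Pool.Agent.H0.Borg

/-- letters: (class, index) -/
abbrev L := Bool × Bool

/-- right multiplication by a letter -/
def rr (l : L) : List L → List L
  | [] => [l]
  | [a] => if a = l then [] else [a, l]
  | a :: b :: t => a :: rr l (b :: t)

/-- left multiplication by a letter -/
def ll (l : L) : List L → List L
  | [] => [l]
  | a :: t => if a = l then t else l :: a :: t

theorem rr_nil (l : L) : rr l [] = [l] := rfl
theorem rr_one (l a : L) : rr l [a] = if a = l then [] else [a, l] := rfl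
theorem rr_cons (l a b : L) (t : List L) : rr l (a :: b :: t) = a :: rr l (b :: t) := rfl
theorem ll_nil (l : L) : ll l [] = [l] := rfl
theorem ll_cons (l a : L) (t : List L) : ll l (a :: t) = if a = l then t else l :: a :: t := rfl

theorem rr_cons_ne (l a : L) (v : List L) (hv : v ≠ []) : rr l (a :: v) = a :: rr l v := by
  cases v with
  | nil => exact absurd rfl hv
  | cons b t => rfl

theorem rr_comm_ll (l l' : L) (w : List L) : rr l (ll l' w) = ll l' (rr l w) := by
  match w with
  | [] =>
    rw [ll_nil, rr_nil, rr_one, ll_cons]
    by_cases h : l = l'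
    · subst h; simp
    · rw [if_neg (fun h' => h h'.symm), if_neg h]
  | [a] =>
    rw [ll_cons, rr_one]
    by_cases h1 : a = l' <;> by_cases h2 : a = l
    · subst h1; subst h2; simp [rr, ll]
    · subst h1; simp [rr, ll, h2]
    · subst h2; simp [rr, ll, h1]
    · simp [rr, ll, h1, h2]
  | a :: b :: t =>
    rw [ll_cons, rr_cons, ll_cons]
    by_cases h1 : a = l'
    · simp [h1]
    · rw [if_neg h1, if_neg h1, rr_cons, rr_cons]

abbrev Red (w : List L) : Prop := w.IsChain (· ≠ ·)

theorem red_ll (l : L) (w : List L) (h : Red w) : Red (ll l w) := by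
  cases w with
  | nil => simp [ll]
  | cons a t =>
    rw [ll_cons]
    split_ifs with h1
    · exact h.tail
    · exact List.IsChain.cons_cons (Ne.symm h1) h

theorem red_rr (l : L) (w : List L) (h : Red w) : Red (rr l w) := by
  match w with
  | [] => simp [rr]
  | [a] =>
    rw [rr_one]
    split_ifs with h1
    · simp
    · simp [h1]
  | a :: b :: t =>
    rw [rr_cons]
    have ih := red_rr l (b :: t) h.tail
    have hab : a ≠ b := by
      have := h
      simp only [Red, List.isChain_cons_cons] at this
      exact this.1
    cases t with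
    | nil =>
      rw [rr_one] at ih ⊢
      split_ifs with h1
      · simp
      · simp [hab, h1]
    | cons c t =>
      rw [rr_cons] at ih ⊢
      exact List.IsChain.cons_cons hab ih

theorem ll_ll (l : L) (w : List L) (h : Red w) : ll l (ll l w) = w := by
  cases w with
  | nil => simp [ll]
  | cons a t =>
    rw [ll_cons]
    by_cases h1 : a = l
    · rw [if_pos h1]
      cases t with
      | nil => rw [ll_nil, h1]
      | cons b t =>
        rw [ll_cons, if_neg, h1]
        rintro rfl
        simp only [Red, List.isChain_cons_cons] at h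
        exact h.1 h1
    · rw [if_neg h1, ll_cons, if_pos rfl]

theorem rr_rr (l : L) (w : List L) (h : Red w) : rr l (rr l w) = w := by
  match w with
  | [] => simp [rr]
  | [a] =>
    rw [rr_one]
    by_cases h1 : a = l
    · simp [h1, rr]
    · simp [h1, rr]
  | a :: b :: t =>
    rw [rr_cons]
    have ih := rr_rr l (b :: t) h.tail
    by_cases hn : rr l (b :: t) = []
    · rw [hn] at ih
      rw [hn]
      have hab : a ≠ b := by
        simp only [Red, List.isChain_cons_cons] at h
        exact h.1
      rw [rr_nil] at ih
      have hb : l = b ∧ [] = t := by simpa using ih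
      rw [rr_one, if_neg (by rw [hb.1]; exact hab), ih]
    · rw [rr_cons_ne _ _ _ hn, ih]

/-- words = vertices of the 4-regular tree -/
def W := {w : List L // Red w}

instance : DecidableEq W := by unfold W; infer_instance

def root : W := ⟨[], by simp⟩
def r (l : L) (x : W) : W := ⟨rr l x.1, red_rr l x.1 x.2⟩
def la (l : L) (x : W) : W := ⟨ll l x.1, red_ll l x.1 x.2⟩

theorem r_r (l : L) (x : W) : r l (r l x) = x := Subtype.ext (rr_rr l x.1 x.2)
theorem la_la (l : L) (x : W) : la l (la l x) = x := Subtype.ext (ll_ll l x.1 x.2)
theorem r_la (l l' : L) (x : W) : r l (la l' x) = la l' (r l x) := Subtype.ext (rr_comm_ll l l' x.1)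

def one (l : L) : W := ⟨[l], by simp⟩
theorem r_root (l : L) : r l root = one l := rfl
theorem la_root (l : L) : la l root = one l := rfl
theorem r_one_self (l : L) : r l (one l) = root := Subtype.ext (by simp [r, one, root, rr])
theorem la_one_self (l : L) : la l (one l) = root := Subtype.ext (by simp [la, one, root, ll])

/-- cone of words with first letter `l` -/
def C (l : L) : Set W := {x | x.1.head? = some l}

instance (l : L) (x : W) : Decidable (x ∈ C l) := by unfold C; exact inferInstanceAs (Decidable (x.1.head? = some l))

theorem head_rr (l : L) (a : L) (t : List L) : (rr l (a :: t)).head? = some a ∨ (t = [] ∧ a = l ∧ rr l (a :: t) = []) := by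
  cases t with
  | nil =>
    rw [rr_one]
    by_cases h : a = l
    · right; simp [h]
    · left; simp [h]
  | cons b t => left; rfl

theorem mem_C_r {l : L} (l' : L) {x : W} (hx : x ∈ C l) : r l' x ∈ C l ∨ (x = one l ∧ l' = l ∧ r l' x = root) := by
  obtain ⟨w, hw⟩ := x
  cases w with
  | nil =>
    have hx' : ([] : List L).head? = some l := hx
    simp at hx'
  | cons a t =>
    have hx' : (a :: t).head? = some l := hx
    simp only [List.head?_cons, Option.some.injEq] at hx'
    subst hx'
    rcases head_rr l' a t with h | ⟨h1, h2, h3⟩
    · left; exact h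
    · right
      subst h1; subst h2
      exact ⟨rfl, rfl, Subtype.ext h3⟩

theorem not_mem_C_r {l : L} (l' : L) {x : W} (hx : x ∉ C l) : r l' x ∉ C l ∨ (x = root ∧ l' = l) := by
  obtain ⟨w, hw⟩ := x
  cases w with
  | nil =>
    by_cases h : l' = l
    · right; exact ⟨rfl, h⟩
    · left
      show ¬ (rr l' []).head? = some l
      simp [rr, h]
  | cons a t =>
    left
    have ha : a ≠ l := by
      intro h; apply hx
      show (a :: t).head? = some l
      simp [h]
    show ¬ (rr l' (a :: t)).head? = some l
    rcases head_rr l' a t with h | ⟨h1, h2, h3⟩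
    · rw [h]; simpa using ha
    · rw [h3]; simp

theorem root_not_mem (l : L) : root ∉ C l := by
  show ¬ ([] : List L).head? = some l
  simp

theorem one_mem (l : L) : one l ∈ C l := rfl

theorem disj {l l' : L} (h : l ≠ l') {x : W} (hx : x ∈ C l) : x ∉ C l' := by
  intro hx'
  have h1 : x.1.head? = some l := hx
  have h2 : x.1.head? = some l' := hx'
  rw [h1] at h2
  exact h (Option.some.inj h2)

theorem eq_root_or (x : W) : x = root ∨ ∃ l, x ∈ C l := by
  obtain ⟨w, hw⟩ := x
  cases w with
  | nil => left; rfl
  | cons a t => right; exact ⟨a, rfl⟩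

/-- flip the index of a letter -/
def fl (l : L) : L := (l.1, !l.2)
theorem fl_fl (l : L) : fl (fl l) = l := by simp [fl]
theorem fl_ne (l : L) : fl l ≠ l := by
  intro h
  have := congrArg Prod.snd h
  simp [fl] at this
theorem fl_inj : Function.Injective fl := Function.LeftInverse.injective fl_fl

theorem rr_map (l : L) (w : List L) : rr (fl l) (w.map fl) = (rr l w).map fl := by
  match w with
  | [] => rfl
  | [a] =>
    simp only [List.map_cons, List.map_nil, rr_one]
    by_cases h : a = l
    · simp [h]
    · rw [if_neg (fun h' => h (fl_inj h')), if_neg h]; simp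
  | a :: b :: t =>
    rw [rr_cons]
    simp only [List.map_cons]
    rw [rr_cons]
    congr 1
    have := rr_map l (b :: t)
    simpa using this

theorem red_map (w : List L) (h : Red w) : Red (w.map fl) := by
  rw [Red, List.isChain_map]
  exact h.imp fun a b hab h' => hab (fl_inj h')

/-- the flip symmetry of words -/
def pi (x : W) : W := ⟨x.1.map fl, red_map x.1 x.2⟩
theorem pi_pi (x : W) : pi (pi x) = x := Subtype.ext (by simp [pi, Function.comp_def, fl_fl])
theorem r_pi (l : L) (x : W) : r (fl l) (pi x) = pi (r l x) := Subtype.ext (rr_map l x.1)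
theorem pi_root : pi root = root := rfl
theorem pi_one (l : L) : pi (one l) = one (fl l) := rfl
theorem pi_mem {l : L} {x : W} (hx : x ∈ C l) : pi x ∈ C (fl l) := by
  have h1 : x.1.head? = some l := hx
  show (x.1.map fl).head? = some (fl l)
  simp [h1]

/-- type of a word: parity of the number of letters of class `true` -/
def ty (w : List L) : Bool := w.foldr (fun l b => xor l.1 b) false

theorem ty_rr (l : L) (w : List L) : ty (rr l w) = xor l.1 (ty w) := by
  match w with
  | [] => simp [ty, rr]
  | [a] =>
    rw [rr_one]
    by_cases h : a = l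
    · simp [ty, h]
    · simp only [if_neg h, ty, List.foldr_cons, List.foldr_nil]
      cases a.1 <;> cases l.1 <;> rfl
  | a :: b :: t =>
    have := ty_rr l (b :: t)
    rw [rr_cons]
    simp only [ty, List.foldr_cons] at this ⊢
    rw [this]
    cases a.1 <;> cases l.1 <;> cases b.1 <;> simp

theorem ty_ll (l : L) (w : List L) : ty (ll l w) = xor l.1 (ty w) := by
  cases w with
  | nil => simp [ty, ll]
  | cons a t =>
    rw [ll_cons]
    split_ifs with h
    · subst h; simp only [ty, List.foldr_cons]; cases a.1 <;> simp
    · simp only [ty, List.foldr_cons]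

theorem ty_map (w : List L) : ty (w.map fl) = ty w := by
  induction w with
  | nil => rfl
  | cons a t ih => simp only [ty, List.map_cons, List.foldr_cons] at ih ⊢; rw [ih]; rfl

def typ (x : W) : Bool := ty x.1
theorem typ_r (l : L) (x : W) : typ (r l x) = xor l.1 (typ x) := ty_rr l x.1
theorem typ_la (l : L) (x : W) : typ (la l x) = xor l.1 (typ x) := ty_ll l x.1
theorem typ_pi (x : W) : typ (pi x) = typ x := ty_map x.1
theorem typ_root : typ root = false := rfl

def len (x : W) : ℕ := x.1.length

theorem len_rr (l : L) (w : List L) : (rr l w).length = w.length + 1 ∨ (rr l w).length + 1 = w.length := by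
  match w with
  | [] => simp [rr]
  | [a] =>
    rw [rr_one]
    by_cases h : a = l <;> simp [h]
  | a :: b :: t =>
    rw [rr_cons]
    rcases len_rr l (b :: t) with h | h
    · left; simp only [List.length_cons] at h ⊢; omega
    · right; simp only [List.length_cons] at h ⊢; omega

theorem len_r (l : L) (x : W) : len (r l x) = len x + 1 ∨ len (r l x) + 1 = len x := len_rr l x.1

theorem la_cons {l : L} {x : W} (hx : x ∉ C l) : (la l x).1 = l :: x.1 := by
  obtain ⟨w, hw⟩ := x
  cases w with
  | nil => rfl
  | cons a t =>
    have : a ≠ l := by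
      intro h; apply hx
      show (a :: t).head? = some l
      simp [h]
    show ll l (a :: t) = l :: a :: t
    rw [ll_cons, if_neg this]

end Pool.Agent.H0.Borg
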