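import Mathlib
import Pool.Agent.H0.Borg.Words

set_option autoImplicit false

namespace Pool.Agent.H0.Borg

noncomputable section

def bt (β : ℝ) (t : Bool) (x : W) : ℝ := if xor (typ x) t then β else 0

def op (E β : ℝ) (t : Bool) (f : W → ℝ) (x : W) : ℝ := (E - bt β t x) * f x - ∑ l : L, f (r l x)

structure Res (E β : ℝ) : Prop where
  inj : ∀ (t : Bool) (f : W → ℝ), Summable (fun x => f x ^ 2) → (∀ x, op E β t f x = 0) → ∀ x, f x = 0
  ex : ∀ t : Bool, ∃ ψ : W → ℝ, Summable (fun x => ψ x ^ 2) ∧ ∀ x, op E β t ψ x = if x = root then 1 else 0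

variable {E β : ℝ}

def flE : L ≃ L := ⟨fl, fl, fl_fl, fl_fl⟩

theorem op_pi (t : Bool) (f : W → ℝ) (x : W) : op E β t (fun y => f (pi y)) x = op E β t f (pi x) := by
  unfold op
  have h1 : bt β t (pi x) = bt β t x := by unfold bt; rw [typ_pi]
  have h2 : ∑ l : L, f (pi (r l x)) = ∑ l : L, f (r l (pi x)) := by
    rw [← Equiv.sum_comp flE (fun l => f (r l (pi x)))]
    refine Finset.sum_congr rfl fun l _ => ?_
    rw [← r_pi]; rfl
  rw [h1, h2]

theorem op_la (t : Bool) (l : L) (f : W → ℝ) (x : W) :
    op E β t f (la l x) = op E β (xor t l.1) (fun y => f (la l y)) x := by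
  unfold op
  have h1 : bt β t (la l x) = bt β (xor t l.1) x := by
    unfold bt; rw [typ_la]
    have : xor (xor l.1 (typ x)) t = xor (typ x) (xor t l.1) := by
      cases l.1 <;> cases typ x <;> cases t <;> rfl
    rw [this]
  have h2 : ∀ l', r l' (la l x) = la l (r l' x) := fun l' => r_la l' l x
  simp only [h1, h2]

theorem op_sub (t : Bool) (f g : W → ℝ) (c : ℝ) (x : W) :
    op E β t (fun y => f y - c * g y) x = op E β t f x - c * op E β t g x := by
  unfold op
  rw [Finset.sum_sub_distrib, ← Finset.mul_sum]
  ring

theorem summable_sub (f g : W → ℝ) (c : ℝ) (hf : Summable (fun x => f x ^ 2)) (hg : Summable (fun x => g x ^ 2)) :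
    Summable (fun x => (f x - c * g x) ^ 2) := by
  refine Summable.of_nonneg_of_le (fun x => sq_nonneg _) (fun x => ?_) ((hf.mul_left 2).add (hg.mul_left (2 * c^2)))
  nlinarith [sq_nonneg (f x + c * g x)]

theorem summable_pi (f : W → ℝ) (hf : Summable (fun x => f x ^ 2)) : Summable (fun x => f (pi x) ^ 2) :=
  hf.comp_injective (Function.LeftInverse.injective pi_pi)

theorem summable_la (l : L) (f : W → ℝ) (hf : Summable (fun x => f x ^ 2)) : Summable (fun x => f (la l x) ^ 2) :=
  hf.comp_injective (Function.LeftInverse.injective (la_la l))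

theorem uniq (R : Res E β) (t : Bool) (l : L) (f : W → ℝ) (hf : Summable (fun x => f x ^ 2))
    (h : ∀ x ∈ C l, op E β t f x = 0) (h0 : f root = 0) : ∀ x ∈ C l, f x = 0 := by
  classical
  let g : W → ℝ := fun x => if x ∈ C l then f x else 0
  have hgs : Summable (fun x => g x ^ 2) := by
    refine Summable.of_nonneg_of_le (fun x => sq_nonneg _) (fun x => ?_) hf
    simp only [g]
    split_ifs
    · exact le_rfl
    · simpa using sq_nonneg (f x)
  have hg : ∀ x, op E β t g x = if x = root then - f (one l) else 0 := by
    intro x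
    by_cases hx : x ∈ C l
    · have hne : x ≠ root := by rintro rfl; exact root_not_mem l hx
      rw [if_neg hne, ← h x hx]
      unfold op
      have e1 : g x = f x := by simp [g, hx]
      have e2 : ∀ l', g (r l' x) = f (r l' x) := by
        intro l'
        rcases mem_C_r l' hx with h1 | ⟨_, _, h1⟩
        · simp [g, h1]
        · rw [h1, h0]; simp [g, root_not_mem]
      rw [e1]
      simp only [e2]
    · have e1 : g x = 0 := by simp [g, hx]
      unfold op
      rw [e1, mul_zero, zero_sub]
      by_cases hxr : x = root
      · rw [if_pos hxr]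
        congr 1
        rw [Finset.sum_eq_single l]
        · rw [hxr, r_root]; simp [g, one_mem]
        · intro l' _ hl'
          rcases not_mem_C_r l' hx with h1 | ⟨_, h1⟩
          · simp [g, h1]
          · exact absurd h1 hl'
        · simp
      · rw [if_neg hxr]
        rw [Finset.sum_eq_zero, neg_zero]
        intro l' _
        rcases not_mem_C_r l' hx with h1 | ⟨h1, _⟩
        · simp [g, h1]
        · exact absurd h1 hxr
  have hh := R.inj t (fun x => g x - 1 * g (pi x)) (summable_sub g (fun x => g (pi x)) 1 hgs (summable_pi g hgs)) (by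
    intro x
    rw [op_sub t g (fun x => g (pi x)) 1 x, op_pi, hg, hg]
    have : pi x = root ↔ x = root := by
      constructor
      · intro h; rw [← pi_pi x, h]; rfl
      · rintro rfl; rfl
    simp [this])
  intro x hx
  have h1 := hh x
  have h2 : g x = f x := by simp [g, hx]
  have h3 : g (pi x) = 0 := by
    have : pi x ∉ C l := disj (fl_ne l) (pi_mem hx)
    simp [g, this]
  rw [h2, h3] at h1
  linarith

/-- Green function data with multiplicative structure -/
theorem green (R : Res E β) : ∃ (ρ : Bool → W → ℝ) (P : Bool → ℝ) (g : Bool → Bool → ℝ),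
    (∀ t, Summable (fun x => ρ t x ^ 2)) ∧ (∀ t, P t ≠ 0) ∧ (∀ t, ρ t root = 1) ∧
    (∀ t x, op E β t (ρ t) x = if x = root then P t else 0) ∧
    (∀ t l, ρ t (one l) = g t l.1) ∧
    (∀ t l x, x ∉ C l → ρ t (la l x) = g t l.1 * ρ (xor t l.1) x) := by
  choose ψ hψs hψ using R.ex
  have hne : ∀ t, ψ t root ≠ 0 := by
    intro t h0
    have h1 : ∀ x, ψ t x = 0 := by
      intro x
      rcases eq_root_or x with rfl | ⟨l, hl⟩
      · exact h0
      · refine uniq R t l (ψ t) (hψs t) (fun y hy => ?_) h0 x hl
        rw [hψ, if_neg]
        rintro rfl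
        exact root_not_mem l hy
    have h2 := hψ t root
    unfold op at h2
    simp [h1] at h2
  have hpi : ∀ t x, ψ t (pi x) = ψ t x := by
    intro t x
    have := R.inj t (fun x => ψ t (pi x) - 1 * ψ t x) (summable_sub _ _ 1 (summable_pi _ (hψs t)) (hψs t)) (by
      intro y
      rw [op_sub t (fun x => ψ t (pi x)) (ψ t) 1 y, op_pi, hψ, hψ]
      have : pi y = root ↔ y = root := by
        constructor
        · intro h; rw [← pi_pi y, h]; rfl
        · rintro rfl; rfl
      simp [this]) x
    linarith
  refine ⟨fun t x => ψ t x / ψ t root, fun t => 1 / ψ t root, fun t c => ψ t (one (c, false)) / ψ t root, ?_, ?_, ?_, ?_, ?_, ?_⟩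
  · intro t
    have := (hψs t).mul_left ((ψ t root)⁻¹ ^ 2)
    refine this.congr fun x => ?_
    field_simp
  · intro t; exact one_div_ne_zero (hne t)
  · intro t; exact div_self (hne t)
  · intro t x
    show op E β t (fun x => ψ t x / ψ t root) x = if x = root then 1 / ψ t root else 0
    have : (fun x => ψ t x / ψ t root) = fun x => 0 - (-(1 / ψ t root)) * ψ t x := by
      funext x; ring
    rw [this, op_sub t (fun _ => 0) (ψ t), hψ]
    have : op E β t (fun _ => 0) x = 0 := by unfold op; simp
    rw [this]
    split_ifs <;> ring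
  · intro t l
    obtain ⟨c, i⟩ := l
    cases i
    · rfl
    · have := hpi t (one (c, false))
      rw [pi_one] at this
      show ψ t (one (c, true)) / _ = _
      have h2 : fl (c, false) = (c, true) := rfl
      rw [h2] at this
      rw [this]
  · intro t l x hx
    have key : ∀ t l x, x ∉ C l → ψ t (la l x) = ψ t (one l) / ψ (xor t l.1) root * ψ (xor t l.1) x := by
      intro t l x hx
      rcases eq_root_or x with rfl | ⟨l', hl'⟩
      · rw [la_root, div_mul_cancel₀ _ (hne _)]
      · have hll : l' ≠ l := by rintro rfl; exact hx hl'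
        set c := ψ t (one l) / ψ (xor t l.1) root with hc
        have := uniq R (xor t l.1) l' (fun y => ψ t (la l y) - c * ψ (xor t l.1) y)
          (summable_sub _ _ c (summable_la l _ (hψs t)) (hψs _)) (by
            intro y hy
            rw [op_sub (xor t l.1) (fun y => ψ t (la l y)) (ψ (xor t l.1)) c y, ← op_la, hψ, hψ]
            have h1 : la l y ≠ root := by
              intro h
              have : y = one l := by rw [← la_la l y, h, la_root]
              rw [this] at hy
              exact disj hll hy (one_mem l)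
            have h2 : y ≠ root := by rintro rfl; exact root_not_mem l' hy
            simp [h1, h2]) (by
            rw [la_root, hc, div_mul_cancel₀ _ (hne _), sub_self]) x hl'
        linarith
    have h1 := key t l x hx
    have h2 : ψ t (one l) / ψ t root = ψ t (one (l.1, false)) / ψ t root := by
      obtain ⟨c, i⟩ := l
      cases i
      · rfl
      · have := hpi t (one (c, false))
        rw [pi_one] at this
        have h2 : fl (c, false) = (c, true) := rfl
        rw [h2] at this
        rw [this]
    show ψ t (la l x) / ψ t root = ψ t (one (l.1, false)) / ψ t root * (ψ (xor t l.1) x / ψ (xor t l.1) root)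
    rw [← h2, h1]
    field_simp

end

end Pool.Agent.H0.Borg
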