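import Mathlib
import Pool.Agent.H0.Borg.Alg

set_option autoImplicit false

namespace Pool.Agent.H0.Borg

noncomputable section

theorem mixed (E β x0 x1 y0 y1 P0 P1 : ℝ) (hβ0 : 0 < β) (hβ : β ≤ 1/4) (h1 : P0 = E - 2 * x0 - 2 * y0) (h2 : P1 = E - β - 2 * x1 - 2 * y1)
    (e1 : x0 * (P0 + x0) = 1) (e2 : x1 * (P1 + x1) = 1) (e3 : y0 * (P1 + y1) = 1) (e4 : y1 * (P0 + y0) = 1)
    (hx0 : x0 ^ 2 < 1) (hx1 : x1 ^ 2 < 1) (hy : (y0 * y1)^2 < 1) (hp0 : 0 < x0) (hp1 : x1 < 0) : False := by
  have hP0 : 0 < P0 := by nlinarith
  have hP1 : P1 < 0 := by nlinarith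
  set q := - (y0 * y1) with hq
  have e3' : y0 * P1 = 1 + q := by rw [hq]; linarith
  have e4' : y1 * P0 = 1 + q := by rw [hq]; linarith
  have hq1 : q < 1 := by nlinarith
  have hqm : -1 < q := by nlinarith
  have hy0 : y0 < 0 := by
    by_contra h
    push Not at h
    nlinarith
  have hy1 : 0 < y1 := by
    by_contra h
    push Not at h
    nlinarith
  have hq0 : 0 < q := by rw [hq]; nlinarith
  set A := P0
  set B := -P1 with hB
  have hBpos : 0 < B := by rw [hB]; linarith
  -- q * (A*B) = (1+q)^2
  have hAB : q * (A * B) = (1+q)^2 := by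
    have : (y0 * P1) * (y1 * P0) = (1+q)*(1+q) := by rw [e3', e4']
    have h3 : (y0 * P1) * (y1 * P0) = q * (A * B) := by rw [hq, hB]; ring
    rw [← h3, this]; ring
  -- (1+q) * (y1 - y0) = q * (A+B)
  have hsum : (1+q) * (y1 - y0) = q * (A + B) := by
    have h3 : y0 * B = -(1+q) := by rw [hB]; linarith
    have h4 : y1 * A = 1 + q := e4'
    have : (1+q) * (y1 - y0) = (y1 * (-(y0 * B))) - (y0 * (y1 * A)) := by rw [h3, h4]; ring
    rw [this, hq]; ring
  have hβeq : β = A + B + 2 * (x0 - x1) - 2 * (y1 - y0) := by rw [hB]; linarith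
  have key : β * (1+q) = (A+B) * (1-q) + 2 * (x0 - x1) * (1+q) := by
    rw [hβeq]; nlinarith
  have hApB : 0 < (A+B) * (1-q) := mul_pos (add_pos hP0 hBpos) (by linarith)
  have hβq : β * (1+q) ≤ 1/4 * (1+q) := mul_le_mul_of_nonneg_right hβ (by linarith)
  have hs : x0 - x1 < 1/8 := by
    by_contra h
    push Not at h
    have h3 : 1/8 * (1+q) ≤ (x0 - x1) * (1+q) := mul_le_mul_of_nonneg_right h (by linarith)
    linarith
  have hA : 7 < A := by
    by_contra h
    push Not at h
    have h3 : x0 < 1/8 := by linarith
    have h4 : x0 * (A + x0) ≤ x0 * (7 + 1/8) := mul_le_mul_of_nonneg_left (by linarith) hp0.le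
    linarith
  have hB7 : 7 < B := by
    by_contra h
    push Not at h
    have h3 : -x1 < 1/8 := by linarith
    have h4 : (-x1) * (B + (-x1)) ≤ (-x1) * (7 + 1/8) := mul_le_mul_of_nonneg_left (by linarith) (by linarith)
    have h5 : (-x1) * (B + (-x1)) = 1 := by rw [hB]; linarith
    linarith
  have h49 : 49 < A * B := by
    have := mul_lt_mul hA hB7.le (by norm_num) (by linarith)
    linarith
  have hq4 : q < 1/4 := by
    by_contra h
    push Not at h
    have h3 : 1/4 * (A * B) ≤ q * (A * B) := mul_le_mul_of_nonneg_right h (by linarith)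
    have h4 : (1+q)^2 < 4 := by
      have : (1+q) < 2 := by linarith
      have : (1+q)^2 < 2^2 := pow_lt_pow_left₀ this (by linarith) (by norm_num)
      linarith
    linarith
  have h6 : (14:ℝ) * (3/4) ≤ (A+B) * (1-q) := mul_le_mul (by linarith) (by linarith) (by norm_num) (by linarith)
  have h7 : 0 < (x0 - x1) * (1+q) := mul_pos (by linarith) (by linarith)
  linarith

theorem signs (E β x0 x1 y0 y1 P0 P1 : ℝ) (hβ0 : 0 < β) (hβ : β ≤ 1/4) (h1 : P0 = E - 2 * x0 - 2 * y0) (h2 : P1 = E - β - 2 * x1 - 2 * y1)
    (e1 : x0 * (P0 + x0) = 1) (e2 : x1 * (P1 + x1) = 1) (e3 : y0 * (P1 + y1) = 1) (e4 : y1 * (P0 + y0) = 1)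
    (hx0 : x0 ^ 2 < 1) (hx1 : x1 ^ 2 < 1) (hy : (y0 * y1)^2 < 1) :
    (0 < x0 ∧ 0 < x1 ∧ 0 < y0 ∧ 0 < y1 ∧ 0 < P0) ∨ (x0 < 0 ∧ x1 < 0 ∧ y0 < 0 ∧ y1 < 0 ∧ P0 < 0) := by
  have hx0n : x0 ≠ 0 := by rintro rfl; simp at e1
  have hx1n : x1 ≠ 0 := by rintro rfl; simp at e2
  have hp1 : y0 * y1 < 1 := by nlinarith
  have e3' : y0 * P1 = 1 - y0 * y1 := by linarith
  have e4' : y1 * P0 = 1 - y0 * y1 := by linarith
  rcases lt_or_gt_of_ne hx0n with hx0s | hx0s <;> rcases lt_or_gt_of_ne hx1n with hx1s | hx1s
  · right
    have hP0 : P0 < 0 := by nlinarith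
    have hP1 : P1 < 0 := by nlinarith
    refine ⟨hx0s, hx1s, ?_, ?_, hP0⟩
    · by_contra h; push Not at h; nlinarith
    · by_contra h; push Not at h; nlinarith
  · exfalso
    have hP0 : P0 < 0 := by nlinarith
    have hP1 : 0 < P1 := by nlinarith
    set q := - (y0 * y1) with hq
    have hq1 : q < 1 := by nlinarith
    have e3'' : y0 * P1 = 1 + q := by rw [hq]; linarith
    have e4'' : y1 * P0 = 1 + q := by rw [hq]; linarith
    have hy0 : 0 < y0 := by
      by_contra h; push Not at h; nlinarith
    have hy1 : y1 < 0 := by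
      by_contra h; push Not at h; nlinarith
    have hq0 : 0 < q := by rw [hq]; nlinarith
    have hsum : (1+q) * (y0 - y1) = q * (P1 - P0) := by
      have : (1+q) * (y0 - y1) = (y0 * (y1 * P0)) - (y1 * (y0 * P1)) := by rw [e3'', e4'']; ring
      rw [this, hq]; ring
    have hβeq : -β = (P1 - P0) + 2 * (x1 - x0) - 2 * (y0 - y1) := by linarith
    have key : (-β) * (1+q) = (P1 - P0) * (1-q) + 2 * (x1 - x0) * (1+q) := by
      rw [hβeq]; nlinarith
    nlinarith [mul_pos (by linarith : 0 < P1 - P0) (by linarith : 0 < 1 - q), mul_pos (by linarith : 0 < x1 - x0) (by linarith : 0 < 1 + q),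
      mul_pos hβ0 (by linarith : 0 < 1 + q)]
  · exact (mixed E β x0 x1 y0 y1 P0 P1 hβ0 hβ h1 h2 e1 e2 e3 e4 hx0 hx1 hy hx0s hx1s).elim
  · left
    have hP0 : 0 < P0 := by nlinarith
    have hP1 : 0 < P1 := by nlinarith
    refine ⟨hx0s, hx1s, ?_, ?_, hP0⟩
    · by_contra h; push Not at h; nlinarith
    · by_contra h; push Not at h; nlinarith

/-- alternating words -/
def alt (c : Bool) : ℕ → W
  | 0 => root
  | n + 1 => la (c, n.bodd) (alt c n)

theorem alt_not_mem (c : Bool) (n : ℕ) : alt c n ∉ C (c, n.bodd) := by
  cases n with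
  | zero => exact root_not_mem _
  | succ n =>
    have h1 : alt c (n+1) ∈ C (c, n.bodd) := by
      have := la_cons (alt_not_mem c n)
      show (la (c, n.bodd) (alt c n)).1.head? = some (c, n.bodd)
      rw [this]; rfl
    refine disj ?_ h1
    simp

theorem len_alt (c : Bool) (n : ℕ) : len (alt c n) = n := by
  induction n with
  | zero => rfl
  | succ n ih =>
    have := la_cons (alt_not_mem c n)
    show (la (c, n.bodd) (alt c n)).1.length = n + 1
    rw [this, List.length_cons]
    exact congrArg (· + 1) ih

theorem alt_inj (c : Bool) : Function.Injective (alt c) := by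
  intro m n h
  rw [← len_alt c m, h, len_alt]

theorem sum_L (f : L → ℝ) : ∑ l : L, f l = f (false, false) + f (false, true) + f (true, false) + f (true, true) := by
  rw [Fintype.sum_prod_type]
  simp
  ring

/-- positivity / supersolution -/
theorem super {E β : ℝ} (hβ0 : 0 < β) (hβ : β ≤ 1/4) (R : Res E β) :
    ∃ φ : W → ℝ, (∀ x, 0 < φ x) ∧
      ((∀ x, ∑ l : L, φ (r l x) ≤ (E - bt β false x) * φ x) ∨
       (∀ x, ∑ l : L, φ (r l x) ≤ (- (E - bt β false x)) * φ x)) := by
  obtain ⟨ρ, P, g, hs, hP, hroot, hop, hone, hmul⟩ := green R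
  have hE0 : ∀ t, P t = E - (if t then β else 0) - 2 * g t false - 2 * g t true := by
    intro t
    have h1 := hop t root
    rw [if_pos rfl] at h1
    unfold op bt at h1
    simp only [typ_root, Bool.false_xor, hroot, mul_one, r_root, hone] at h1
    rw [sum_L] at h1
    linarith
  have hE1 : ∀ t c, g t c * (P (xor t c) + g (xor t c) c) = 1 := by
    intro t c
    have h1 := hop t (one (c, false))
    rw [if_neg (by intro h; have := one_mem (c, false); rw [h] at this; exact root_not_mem _ this)] at h1
    have h2 : ∀ l' : L, ρ t (r l' (one (c, false))) = if l' = (c, false) then 1 else g t c * g (xor t c) l'.1 := by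
      intro l'
      split_ifs with h
      · rw [h, r_one_self, hroot]
      · rw [← la_root, r_la, r_root, hmul t (c, false) (one l') (disj h (one_mem l')), hone]
    unfold op at h1
    simp only [h2, hone] at h1
    rw [sum_L] at h1
    have h3 : bt β t (one (c, false)) = if (xor t c) then β else 0 := by
      unfold bt
      have : typ (one (c, false)) = c := by rw [← r_root, typ_r, typ_root]; simp
      rw [this, Bool.xor_comm]
    rw [h3] at h1
    have h4 := hE0 (xor t c)
    cases c
    · simp at h1 h4 ⊢
      rw [h4]; linarith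
    · simp at h1 h4 ⊢
      rw [h4]; linarith
  have hx : ∀ t, (g t false)^2 < 1 := by
    intro t
    have h1 : ∀ n, ρ t (alt false n) = (g t false)^n := by
      intro n
      induction n with
      | zero => simpa [alt] using hroot t
      | succ n ih =>
        show ρ t (la (false, n.bodd) (alt false n)) = _
        rw [hmul t _ _ (alt_not_mem false n)]
        simp only [Bool.xor_false]
        rw [ih, pow_succ]; ring
    have h2 := (hs t).comp_injective (alt_inj false)
    have h3 : Summable (fun n : ℕ => ((g t false)^2)^n) := by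
      refine h2.congr fun n => ?_
      simp only [Function.comp, h1]
      ring
    have h4 := summable_geometric_iff_norm_lt_one.1 h3
    rwa [Real.norm_of_nonneg (sq_nonneg _)] at h4
  have hy : (g false true * g true true)^2 < 1 := by
    have h1 : ∀ n, ρ false (alt true (2*n)) = (g false true * g true true)^n := by
      intro n
      induction n with
      | zero => simpa [alt] using hroot false
      | succ n ih =>
        show ρ false (la (true, (2*n+1).bodd) (alt true (2*n+1))) = _
        rw [hmul false _ _ (alt_not_mem true (2*n+1))]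
        show _ * ρ _ (la (true, (2*n).bodd) (alt true (2*n))) = _
        rw [hmul _ _ _ (alt_not_mem true (2*n))]
        simp only [Bool.false_xor, Bool.xor_self]
        rw [ih, pow_succ]; ring
    have h2 := ((hs false).comp_injective (alt_inj true)).comp_injective (fun a b h => by simpa using h : Function.Injective (fun n : ℕ => 2 * n))
    have h3 : Summable (fun n : ℕ => ((g false true * g true true)^2)^n) := by
      refine h2.congr fun n => ?_
      simp only [Function.comp, h1]
      ring
    have h4 := summable_geometric_iff_norm_lt_one.1 h3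
    rwa [Real.norm_of_nonneg (sq_nonneg _)] at h4
  have hsig := signs E β (g false false) (g true false) (g false true) (g true true) (P false) (P true) hβ0 hβ
    (by have := hE0 false; simpa using this) (by have := hE0 true; simpa using this)
    (by simpa using hE1 false false) (by simpa using hE1 true false) (by simpa using hE1 false true) (by simpa using hE1 true true)
    (hx false) (hx true) hy
  -- sign of ρ
  have hrec : ∀ (s : ℝ), (∀ t c, 0 < s * g t c) → ∀ (n : ℕ) (t : Bool) (x : W), len x = n → 0 < s ^ n * ρ t x := by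
    intro s hsg n
    induction n with
    | zero =>
      intro t x hx
      have : x = root := by
        obtain ⟨w, hw⟩ := x
        have : w = [] := List.length_eq_zero_iff.1 hx
        subst this; rfl
      rw [this, hroot]; simp
    | succ n ih =>
      intro t x hx
      obtain ⟨w, hw⟩ := x
      cases w with
      | nil => simp [len] at hx
      | cons a v =>
        have hv : Red v := hw.tail
        have hnot : (⟨v, hv⟩ : W) ∉ C a := by
          intro h
          have h' : v.head? = some a := h
          cases v with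
          | nil => simp at h'
          | cons b t =>
            simp only [List.head?_cons, Option.some.injEq] at h'
            simp only [Red, List.isChain_cons_cons] at hw
            exact hw.1 h'.symm
        have e : (⟨a :: v, hw⟩ : W) = la a ⟨v, hv⟩ := Subtype.ext (la_cons hnot).symm
        rw [e, hmul t a _ hnot]
        have h1 := ih (xor t a.1) ⟨v, hv⟩ (by simp [len] at hx ⊢; exact hx)
        have h2 := hsg t a.1
        have : s ^ (n+1) * (g t a.1 * ρ (xor t a.1) ⟨v, hv⟩) = (s * g t a.1) * (s ^ n * ρ (xor t a.1) ⟨v, hv⟩) := by ring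
        rw [this]
        exact mul_pos h2 h1
  rcases hsig with ⟨h1, h2, h3, h4, h5⟩ | ⟨h1, h2, h3, h4, h5⟩
  · refine ⟨ρ false, fun x => ?_, Or.inl fun x => ?_⟩
    · have := hrec 1 (by intro t c; cases t <;> cases c <;> simpa) (len x) false x rfl
      simpa using this
    · have := hop false x
      unfold op at this
      split_ifs at this <;> linarith
  · refine ⟨fun x => (-1)^(len x) * ρ false x, fun x => ?_, Or.inr fun x => ?_⟩
    · exact hrec (-1) (by intro t c; cases t <;> cases c <;> simpa) (len x) false x rfl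
    · have h6 := hop false x
      unfold op at h6
      have h7 : ∀ l, (-1:ℝ)^(len (r l x)) = - (-1)^(len x) := by
        intro l
        rcases len_r l x with h | h
        · rw [h, pow_succ]; ring
        · rw [← h, pow_succ]; ring
      simp only [h7]
      have h8 : ∑ l : L, -(-1:ℝ)^(len x) * ρ false (r l x) = -(-1:ℝ)^(len x) * ∑ l : L, ρ false (r l x) := by
        rw [Finset.mul_sum]
      rw [h8]
      by_cases hxr : x = root
      · rw [if_pos hxr] at h6
        have : len x = 0 := by rw [hxr]; rfl
        rw [this]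
        simp only [pow_zero]
        linarith
      · rw [if_neg hxr] at h6
        have : ∑ l : L, ρ false (r l x) = (E - bt β false x) * ρ false x := by linarith
        rw [this]
        apply le_of_eq; ring

end

end Pool.Agent.H0.Borg
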