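import Mathlib
import Pool.Agent.H0.Borg.Sign

set_option autoImplicit false

namespace Pool.Agent.H0.Borg

noncomputable section

variable {V : Type}

abbrev HS (V : Type) := lp (fun _ : V => ℂ) 2

theorem summable_sq (f : HS V) : Summable (fun x => ‖f x‖ ^ 2) := by
  have := (memℓp_gen_iff (p := 2) (by simp)).1 (lp.memℓp f)
  simpa using this

theorem norm_sq_eq (f : HS V) : ‖f‖ ^ 2 = ∑' x, ‖f x‖ ^ 2 := by
  have := lp.norm_rpow_eq_tsum (p := 2) (by simp) f
  simpa using this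

theorem mem_of_summable {f : V → ℂ} (h : Summable (fun x => ‖f x‖ ^ 2)) : Memℓp f (2 : ENNReal) := by
  rw [memℓp_gen_iff (by simp)]
  simpa using h

/-- weighted composition operator -/
def Uop (σ : V ≃ V) (s : V → ℂ) (hs : ∀ x, ‖s x‖ = 1) : HS V →L[ℂ] HS V :=
  LinearMap.mkContinuous
    { toFun := fun f => ⟨fun x => s x * f (σ x), mem_of_summable (by
        have := (summable_sq f).comp_injective σ.injective
        refine this.congr fun x => ?_
        simp [hs])⟩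
      map_add' := by
        intro f g; ext x
        show s x * (f (σ x) + g (σ x)) = s x * f (σ x) + s x * g (σ x)
        ring
      map_smul' := by
        intro c f; ext x; simp; ring } 1 (by
    intro f
    rw [one_mul]
    apply le_of_sq_le_sq _ (norm_nonneg _)
    rw [norm_sq_eq, norm_sq_eq]
    apply le_of_eq
    have := σ.tsum_eq (fun x => ‖f x‖^2)
    rw [← this]
    refine tsum_congr fun x => ?_
    simp [hs])

theorem Uop_apply (σ : V ≃ V) (s : V → ℂ) (hs : ∀ x, ‖s x‖ = 1) (f : HS V) (x : V) :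
    Uop σ s hs f x = s x * f (σ x) := rfl


open scoped InnerProductSpace ComplexConjugate

theorem Uop_sa (σ : V ≃ V) (hσ : ∀ x, σ (σ x) = x) (s : V → ℂ) (hs : ∀ x, ‖s x‖ = 1) (hs2 : ∀ x, conj (s (σ x)) = s x) :
    IsSelfAdjoint (Uop σ s hs) := by
  rw [ContinuousLinearMap.isSelfAdjoint_iff_isSymmetric]
  intro f g
  show ⟪Uop σ s hs f, g⟫_ℂ = ⟪f, Uop σ s hs g⟫_ℂ
  rw [lp.inner_eq_tsum, lp.inner_eq_tsum, ← σ.tsum_eq]
  refine tsum_congr fun x => ?_
  rw [Uop_apply, Uop_apply, hσ]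
  simp only [RCLike.inner_apply, map_mul, hs2]
  ring

variable (e : V ≃ W)

def rE (l : L) : W ≃ W := ⟨r l, r l, r_r l, r_r l⟩
def RV (l : L) : V ≃ V := (e.trans (rE l)).trans e.symm

theorem RV_apply (l : L) (x : V) : RV e l x = e.symm (r l (e x)) := rfl
theorem RV_RV (l : L) (x : V) : RV e l (RV e l x) = x := by simp [RV_apply, r_r]

def sg (x : V) : ℂ := if typ (e x) then -1 else 1

theorem conj_sg (x : V) : conj (sg e x) = sg e x := by
  unfold sg
  split_ifs <;> simp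

/-- The operator adjacency + potential -/
def Hop (β : ℝ) : HS V →L[ℂ] HS V :=
  (((β / 2 : ℝ) : ℂ)) • (1 - Uop (Equiv.refl V) (sg e) (by intro x; unfold sg; split_ifs <;> simp))
    + ∑ l : L, Uop (RV e l) (fun _ => 1) (by simp)

theorem Hop_apply (β : ℝ) (f : HS V) (x : V) :
    Hop e β f x = ((if typ (e x) then β else 0 : ℝ) : ℂ) * f x + ∑ l : L, f (e.symm (r l (e x))) := by
  have h1 : Hop e β f x = (((β / 2 : ℝ) : ℂ)) * (f x - sg e x * f x) + (∑ l : L, (Uop (RV e l) (fun _ => 1) (by simp)) f) x := by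
    unfold Hop
    rw [add_apply, sum_apply]
    rfl
  rw [h1]
  have h2 : (∑ l : L, (Uop (RV e l) (fun _ => 1) (by simp)) f) x = ∑ l : L, f (e.symm (r l (e x))) := by
    rw [lp.coeFn_sum, Finset.sum_apply]
    refine Finset.sum_congr rfl fun l _ => ?_
    rw [Uop_apply, one_mul, RV_apply]
  rw [h2]
  congr 1
  unfold sg
  split_ifs
  · push_cast; ring
  · push_cast; ring

theorem Hop_sa (β : ℝ) : IsSelfAdjoint (Hop e β) := by
  unfold Hop
  refine IsSelfAdjoint.add ?_ ?_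
  · refine IsSelfAdjoint.smul ?_ ?_
    · rw [isSelfAdjoint_iff]; exact Complex.conj_ofReal _
    · refine (IsSelfAdjoint.one _).sub (Uop_sa _ (by simp) _ _ ?_)
      intro x
      exact conj_sg e x
  · refine isSelfAdjoint_sum _ fun l _ => Uop_sa _ (RV_RV e l) _ _ (by simp)

/-- the key quadratic form bound -/
theorem quad (φ : V → ℝ) (hφ : ∀ x, 0 < φ x) (a : V → ℝ) (A : ℝ) (hA : ∀ x, a x ≤ A)
    (h : ∀ x, ∑ l : L, φ (RV e l x) ≤ a x * φ x) (f : HS V) :
    ∑ l : L, ‖⟪f, Uop (RV e l) (fun _ => 1) (by simp) f⟫_ℂ‖ ≤ ∑' x, a x * ‖f x‖ ^ 2 ∧ Summable (fun x => a x * ‖f x‖ ^ 2) := by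
  have hs := summable_sq f
  have ha0 : ∀ x, 0 ≤ a x := by
    intro x
    have h1 : 0 ≤ ∑ l : L, φ (RV e l x) := Finset.sum_nonneg fun l _ => (hφ _).le
    have := h1.trans (h x)
    exact nonneg_of_mul_nonneg_left this (hφ x)
  have hsa : Summable (fun x => a x * ‖f x‖ ^ 2) := by
    refine Summable.of_nonneg_of_le (fun x => mul_nonneg (ha0 x) (sq_nonneg _)) (fun x => ?_) (hs.mul_left A)
    exact mul_le_mul_of_nonneg_right (hA x) (sq_nonneg _)
  have hle : ∀ l x, φ (RV e l x) / φ x ≤ A := by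
    intro l x
    rw [div_le_iff₀ (hφ x)]
    have h1 : φ (RV e l x) ≤ ∑ l : L, φ (RV e l x) :=
      Finset.single_le_sum (f := fun l => φ (RV e l x)) (fun l _ => (hφ _).le) (Finset.mem_univ l)
    exact h1.trans ((h x).trans (mul_le_mul_of_nonneg_right (hA x) (hφ x).le))
  have hsl : ∀ l, Summable (fun x => φ (RV e l x) / φ x * ‖f x‖ ^ 2) := by
    intro l
    refine Summable.of_nonneg_of_le (fun x => mul_nonneg (div_nonneg (hφ _).le (hφ _).le) (sq_nonneg _)) (fun x => ?_) (hs.mul_left A)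
    exact mul_le_mul_of_nonneg_right (hle l x) (sq_nonneg _)
  have key : ∀ l, ‖⟪f, Uop (RV e l) (fun _ => 1) (by simp) f⟫_ℂ‖ ≤ ∑' x, φ (RV e l x) / φ x * ‖f x‖ ^ 2 := by
    intro l
    rw [lp.inner_eq_tsum]
    have hsl2 : Summable (fun x => φ x / φ (RV e l x) * ‖f (RV e l x)‖ ^ 2) := by
      have := (hsl l).comp_injective (RV e l).injective
      refine this.congr fun x => ?_
      simp only [Function.comp, RV_RV]
    have e2 : ∑' x, φ x / φ (RV e l x) * ‖f (RV e l x)‖ ^ 2 = ∑' x, φ (RV e l x) / φ x * ‖f x‖ ^ 2 := by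
      rw [← (RV e l).tsum_eq (fun x => φ (RV e l x) / φ x * ‖f x‖ ^ 2)]
      refine tsum_congr fun x => ?_
      rw [RV_RV]
    have hpt : ∀ x, ‖⟪f x, Uop (RV e l) (fun _ => 1) (by simp) f x⟫_ℂ‖ ≤
        (φ (RV e l x) / φ x * ‖f x‖ ^ 2 + φ x / φ (RV e l x) * ‖f (RV e l x)‖ ^ 2) / 2 := by
      intro x
      rw [Uop_apply, one_mul]
      refine (norm_inner_le_norm _ _).trans ?_
      have h1 := hφ x
      have h2 := hφ (RV e l x)
      set p := φ x
      set q := φ (RV e l x)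
      set u := ‖f x‖
      set v := ‖f (RV e l x)‖
      have h3 : 0 ≤ (q * u - p * v)^2 := sq_nonneg _
      rw [le_div_iff₀ (by norm_num)]
      have h4 : q / p * u^2 + p / q * v^2 = (q^2 * u^2 + p^2 * v^2) / (p * q) := by field_simp
      rw [h4, le_div_iff₀ (mul_pos h1 h2)]
      nlinarith
    have hsn : Summable (fun x => ‖⟪f x, Uop (RV e l) (fun _ => 1) (by simp) f x⟫_ℂ‖) :=
      Summable.of_nonneg_of_le (fun x => norm_nonneg _) hpt (((hsl l).add hsl2).div_const 2)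
    calc ‖∑' x, ⟪f x, Uop (RV e l) (fun _ => 1) (by simp) f x⟫_ℂ‖
        ≤ ∑' x, ‖⟪f x, Uop (RV e l) (fun _ => 1) (by simp) f x⟫_ℂ‖ := norm_tsum_le_tsum_norm hsn
      _ ≤ ∑' x, (φ (RV e l x) / φ x * ‖f x‖ ^ 2 + φ x / φ (RV e l x) * ‖f (RV e l x)‖ ^ 2) / 2 :=
          hsn.tsum_le_tsum hpt (((hsl l).add hsl2).div_const 2)
      _ = (∑' x, φ (RV e l x) / φ x * ‖f x‖ ^ 2 + ∑' x, φ x / φ (RV e l x) * ‖f (RV e l x)‖ ^ 2) / 2 := by
          rw [tsum_div_const, (hsl l).tsum_add hsl2]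
      _ = _ := by rw [e2]; ring
  refine ⟨?_, hsa⟩
  calc ∑ l : L, ‖⟪f, Uop (RV e l) (fun _ => 1) (by simp) f⟫_ℂ‖ ≤ ∑ l : L, ∑' x, φ (RV e l x) / φ x * ‖f x‖ ^ 2 :=
        Finset.sum_le_sum fun l _ => key l
    _ = ∑' x, ∑ l : L, φ (RV e l x) / φ x * ‖f x‖ ^ 2 := (Summable.tsum_finsetSum fun l _ => hsl l).symm
    _ ≤ ∑' x, a x * ‖f x‖ ^ 2 := by
        refine Summable.tsum_le_tsum (fun x => ?_) (summable_sum fun l _ => hsl l) hsa
        rw [← Finset.sum_mul, ← Finset.sum_div]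
        refine mul_le_mul_of_nonneg_right ?_ (sq_nonneg _)
        rw [div_le_iff₀ (hφ x)]
        exact h x

end

end Pool.Agent.H0.Borg
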