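import Mathlib
import Pool.Agent.H0.Borg.Oper

set_option autoImplicit false

namespace Pool.Agent.H0.Borg

noncomputable section

open scoped InnerProductSpace ComplexConjugate

variable {V : Type} (e : V ≃ W)

/-- value of the potential on V -/
def bV (β : ℝ) (x : V) : ℝ := if typ (e x) then β else 0

theorem bV_eq (β : ℝ) (x : V) : bV e β x = bt β false (e x) := by
  unfold bV bt; simp

theorem inner_Hop (β : ℝ) (f : HS V) :
    (⟪f, Hop e β f⟫_ℂ).re = ∑' x, bV e β x * ‖f x‖ ^ 2 + ∑ l : L, (⟪f, Uop (RV e l) (fun _ => 1) (by simp) f⟫_ℂ).re := by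
  have hs := summable_sq f
  have h0 : Hop e β f = (((β / 2 : ℝ) : ℂ)) • (f - Uop (Equiv.refl V) (sg e) (by intro x; unfold sg; split_ifs <;> simp) f)
      + ∑ l : L, Uop (RV e l) (fun _ => 1) (by simp) f := by
    unfold Hop
    rw [add_apply, sum_apply]
    rfl
  rw [h0, inner_add_right, inner_sum, Complex.add_re, Complex.re_sum]
  congr 1
  rw [lp.inner_eq_tsum]
  have h1 : ∀ x, ⟪f x, ((((β / 2 : ℝ) : ℂ)) • (f - Uop (Equiv.refl V) (sg e) (by intro x; unfold sg; split_ifs <;> simp) f)) x⟫_ℂ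
      = ((bV e β x * ‖f x‖ ^ 2 : ℝ) : ℂ) := by
    intro x
    have h2 : ((((β / 2 : ℝ) : ℂ)) • (f - Uop (Equiv.refl V) (sg e) (by intro x; unfold sg; split_ifs <;> simp) f)) x = ((bV e β x : ℝ) : ℂ) * f x := by
      show (((β / 2 : ℝ) : ℂ)) * (f x - sg e x * f x) = _
      unfold sg bV
      split_ifs
      · push_cast; ring
      · push_cast; ring
    rw [h2, RCLike.inner_apply, mul_assoc, Complex.mul_conj, Complex.normSq_eq_norm_sq]
    push_cast; ring
  simp only [h1]
  rw [← Complex.ofReal_tsum, Complex.ofReal_re]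

/-- scalar operator -/
def cI (V : Type) (c : ℝ) : HS V →L[ℂ] HS V := (c : ℂ) • (1 : HS V →L[ℂ] HS V)

theorem alg_sa (c : ℝ) : IsSelfAdjoint (cI V c) := by
  unfold cI
  refine IsSelfAdjoint.smul ?_ (IsSelfAdjoint.one _)
  rw [isSelfAdjoint_iff]; exact Complex.conj_ofReal _

theorem gen_upper {E : Type*} [NormedAddCommGroup E] [InnerProductSpace ℂ E] [CompleteSpace E] (T : E →L[ℂ] E)
    (hT : IsSelfAdjoint T) (c : ℝ) (h : ((c : ℂ) • (1 : E →L[ℂ] E) - T).IsPositive) :
    ∀ z ∈ spectrum ℂ T, z.re ≤ c := by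
  intro z hz
  have hz1 : z = (z.re : ℂ) := hT.mem_spectrum_eq_re hz
  have h1 := SpectrumRestricts.nnreal_iff.1 h.spectrumRestricts
  have h2 := h1 (c - z.re) (by
    rw [spectrum.mem_iff]
    rw [hz1, spectrum.mem_iff] at hz
    intro hu
    apply hz
    have e1 : algebraMap ℝ (E →L[ℂ] E) (c - z.re) - ((c : ℂ) • (1 : E →L[ℂ] E) - T) = -(algebraMap ℂ (E →L[ℂ] E) (z.re : ℂ) - T) := by
      ext x
      simp [Algebra.algebraMap_eq_smul_one, sub_smul]
    rw [e1] at hu
    exact (IsUnit.neg_iff _).1 hu)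
  linarith

theorem gen_lower {E : Type*} [NormedAddCommGroup E] [InnerProductSpace ℂ E] [CompleteSpace E] (T : E →L[ℂ] E)
    (hT : IsSelfAdjoint T) (c : ℝ) (h : (T - (c : ℂ) • (1 : E →L[ℂ] E)).IsPositive) :
    ∀ z ∈ spectrum ℂ T, c ≤ z.re := by
  intro z hz
  have hz1 : z = (z.re : ℂ) := hT.mem_spectrum_eq_re hz
  have h1 := SpectrumRestricts.nnreal_iff.1 h.spectrumRestricts
  have h2 := h1 (z.re - c) (by
    rw [spectrum.mem_iff]
    rw [hz1, spectrum.mem_iff] at hz
    intro hu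
    apply hz
    have e1 : algebraMap ℝ (E →L[ℂ] E) (z.re - c) - (T - (c : ℂ) • (1 : E →L[ℂ] E)) = (algebraMap ℂ (E →L[ℂ] E) (z.re : ℂ) - T) := by
      ext x
      simp [Algebra.algebraMap_eq_smul_one, sub_smul]
    rw [e1] at hu
    exact hu)
  linarith

theorem upper (β : ℝ) (hβ : 0 ≤ β) (c : ℝ) (φ : W → ℝ) (hφ : ∀ x, 0 < φ x)
    (h : ∀ x, ∑ l : L, φ (r l x) ≤ (c - bt β false x) * φ x) : Hop e β ≤ cI V c := by
  rw [ContinuousLinearMap.le_def, ContinuousLinearMap.isPositive_def']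
  have hsa : IsSelfAdjoint (cI V c - Hop e β) :=
    (alg_sa c).sub (Hop_sa e β)
  refine ⟨hsa, fun f => ?_⟩
  have hb0 : ∀ x, 0 ≤ bV e β x := by intro x; unfold bV; split_ifs <;> simp [hβ]
  obtain ⟨hq, hsum⟩ := quad e (fun x => φ (e x)) (fun x => hφ _) (fun x => c - bV e β x) c (fun x => by have := hb0 x; linarith) (by
    intro x
    have := h (e x)
    rw [← bV_eq] at this
    refine le_trans (le_of_eq ?_) this
    refine Finset.sum_congr rfl fun l _ => ?_
    rw [RV_apply, Equiv.apply_symm_apply]) f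
  have hs := summable_sq f
  rw [ContinuousLinearMap.reApplyInnerSelf_apply]
  have h1 : (⟪(cI V c - Hop e β) f, f⟫_ℂ).re = c * ‖f‖^2 - (⟪f, Hop e β f⟫_ℂ).re := by
    rw [sub_apply, inner_sub_left, Complex.sub_re]
    congr 1
    · have : (cI V c) f = (c : ℂ) • f := rfl
      rw [this, inner_smul_left, inner_self_eq_norm_sq_to_K]
      simp [← Complex.ofReal_pow]
    · rw [← inner_conj_symm, Complex.conj_re]
  show 0 ≤ (⟪(cI V c - Hop e β) f, f⟫_ℂ).re
  rw [h1, inner_Hop]
  have h2 : ∑ l : L, (⟪f, Uop (RV e l) (fun _ => 1) (by simp) f⟫_ℂ).re ≤ ∑' x, (c - bV e β x) * ‖f x‖ ^ 2 :=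
    (Finset.sum_le_sum fun l _ => Complex.re_le_norm _).trans hq
  have hsb : Summable (fun x => bV e β x * ‖f x‖ ^ 2) := by
    have := (hs.mul_left c).sub hsum
    refine this.congr fun x => ?_
    ring
  have h3 : ∑' x, bV e β x * ‖f x‖ ^ 2 + ∑' x, (c - bV e β x) * ‖f x‖ ^ 2 = c * ‖f‖^2 := by
    rw [norm_sq_eq, ← tsum_mul_left, ← hsb.tsum_add hsum]
    refine tsum_congr fun x => ?_
    ring
  linarith

theorem lower (β : ℝ) (hβ : 0 ≤ β) (c : ℝ) (φ : W → ℝ) (hφ : ∀ x, 0 < φ x)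
    (h : ∀ x, ∑ l : L, φ (r l x) ≤ (-(c - bt β false x)) * φ x) : cI V c ≤ Hop e β := by
  rw [ContinuousLinearMap.le_def, ContinuousLinearMap.isPositive_def']
  have hsa : IsSelfAdjoint (Hop e β - cI V c) :=
    (Hop_sa e β).sub (alg_sa c)
  refine ⟨hsa, fun f => ?_⟩
  have hbβ : ∀ x, bV e β x ≤ β := by intro x; unfold bV; split_ifs <;> simp [hβ]
  obtain ⟨hq, hsum⟩ := quad e (fun x => φ (e x)) (fun x => hφ _) (fun x => -(c - bV e β x)) (β - c) (fun x => by have := hbβ x; linarith) (by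
    intro x
    have := h (e x)
    rw [← bV_eq] at this
    refine le_trans (le_of_eq ?_) this
    refine Finset.sum_congr rfl fun l _ => ?_
    rw [RV_apply, Equiv.apply_symm_apply]) f
  have hs := summable_sq f
  rw [ContinuousLinearMap.reApplyInnerSelf_apply]
  have h1 : (⟪(Hop e β - cI V c) f, f⟫_ℂ).re = (⟪f, Hop e β f⟫_ℂ).re - c * ‖f‖^2 := by
    rw [sub_apply, inner_sub_left, Complex.sub_re]
    congr 1
    · rw [← inner_conj_symm, Complex.conj_re]
    · have : (cI V c) f = (c : ℂ) • f := rfl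
      rw [this, inner_smul_left, inner_self_eq_norm_sq_to_K]
      simp [← Complex.ofReal_pow]
  show 0 ≤ (⟪(Hop e β - cI V c) f, f⟫_ℂ).re
  rw [h1, inner_Hop]
  have h2 : -(∑' x, (-(c - bV e β x)) * ‖f x‖ ^ 2) ≤ ∑ l : L, (⟪f, Uop (RV e l) (fun _ => 1) (by simp) f⟫_ℂ).re := by
    rw [neg_le, ← Finset.sum_neg_distrib]
    refine (Finset.sum_le_sum fun l _ => ?_).trans hq
    exact (neg_le_abs _).trans (Complex.abs_re_le_norm _)
  have hsb : Summable (fun x => bV e β x * ‖f x‖ ^ 2) := by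
    have := (hs.mul_left c).add hsum
    refine this.congr fun x => ?_
    ring
  have h3 : ∑' x, bV e β x * ‖f x‖ ^ 2 - ∑' x, (-(c - bV e β x)) * ‖f x‖ ^ 2 = c * ‖f‖^2 := by
    rw [norm_sq_eq, ← tsum_mul_left, ← hsb.tsum_sub hsum]
    refine tsum_congr fun x => ?_
    ring
  linarith


theorem bdd_apply_real (β c : ℝ) (F : HS V) (x : V) :
    ((cI V c - Hop e β) F) x = ((c - bV e β x : ℝ) : ℂ) * F x - ∑ l : L, F (e.symm (r l (e x))) := by
  rw [sub_apply]
  show (c : ℂ) * F x - Hop e β F x = _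
  rw [Hop_apply]
  unfold bV
  push_cast
  ring

/-- Step A -/
theorem res_of_not_mem (β c : ℝ) (hc : (c : ℂ) ∉ spectrum ℂ (Hop e β)) : Res c β := by
  classical
  rw [spectrum.notMem_iff, Algebra.algebraMap_eq_smul_one] at hc
  obtain ⟨u, hu⟩ := hc
  set T : HS V →L[ℂ] HS V := cI V c - Hop e β with hT
  have hu : (u : HS V →L[ℂ] HS V) = T := hu
  have hinj : ∀ F : HS V, T F = 0 → F = 0 := by
    intro F hF
    have h1 : ((u⁻¹ : (HS V →L[ℂ] HS V)ˣ) : HS V →L[ℂ] HS V) (T F) = F := by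
      rw [← hu]
      have : ((u⁻¹ : (HS V →L[ℂ] HS V)ˣ) : HS V →L[ℂ] HS V) * (u : HS V →L[ℂ] HS V) = 1 := Units.inv_mul u
      calc _ = (((u⁻¹ : (HS V →L[ℂ] HS V)ˣ) : HS V →L[ℂ] HS V) * (u : HS V →L[ℂ] HS V)) F := rfl
        _ = F := by rw [this]; rfl
    rw [← h1, hF, map_zero]
  have hsurj : ∀ G : HS V, ∃ F : HS V, T F = G := by
    intro G
    refine ⟨((u⁻¹ : (HS V →L[ℂ] HS V)ˣ) : HS V →L[ℂ] HS V) G, ?_⟩
    rw [← hu]
    have : (u : HS V →L[ℂ] HS V) * ((u⁻¹ : (HS V →L[ℂ] HS V)ˣ) : HS V →L[ℂ] HS V) = 1 := Units.mul_inv u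
    calc _ = ((u : HS V →L[ℂ] HS V) * ((u⁻¹ : (HS V →L[ℂ] HS V)ˣ) : HS V →L[ℂ] HS V)) G := rfl
      _ = G := by rw [this]; rfl
  -- real functions on words
  have inj0 : ∀ f : W → ℝ, Summable (fun x => f x ^ 2) → (∀ x, op c β false f x = 0) → ∀ x, f x = 0 := by
    intro f hf h
    let F : HS V := ⟨fun v => ((f (e v) : ℝ) : ℂ), mem_of_summable (by
      have := hf.comp_injective e.injective
      refine this.congr fun x => ?_
      simp)⟩
    have hF : T F = 0 := by
      ext v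
      rw [hT, bdd_apply_real]
      have h1 := h (e v)
      unfold op at h1
      have h2 : ((c - bV e β v : ℝ) : ℂ) * F v - ∑ l : L, F (e.symm (r l (e v))) = (((c - bt β false (e v)) * f (e v) - ∑ l : L, f (r l (e v)) : ℝ) : ℂ) := by
        rw [bV_eq]
        push_cast
        congr 1
        refine Finset.sum_congr rfl fun l _ => ?_
        show ((f (e (e.symm (r l (e v)))) : ℝ) : ℂ) = _
        rw [Equiv.apply_symm_apply]
      rw [h2, h1]
      rfl
    have hF0 := hinj F hF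
    intro x
    have h3 : F (e.symm x) = 0 := by rw [hF0]; rfl
    have h4 : ((f (e (e.symm x)) : ℝ) : ℂ) = 0 := h3
    rw [Equiv.apply_symm_apply] at h4
    exact_mod_cast h4
  have ex0 : ∀ w : W, ∃ ψ : W → ℝ, Summable (fun x => ψ x ^ 2) ∧ ∀ x, op c β false ψ x = if x = w then 1 else 0 := by
    intro w
    obtain ⟨F, hF⟩ := hsurj (lp.single 2 (e.symm w) (1 : ℂ))
    refine ⟨fun x => (F (e.symm x)).re, ?_, ?_⟩
    · have := (summable_sq F).comp_injective e.symm.injective
      refine Summable.of_nonneg_of_le (fun x => sq_nonneg _) (fun x => ?_) this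
      simp only [Function.comp]
      rw [← sq_abs]
      exact pow_le_pow_left₀ (abs_nonneg _) (Complex.abs_re_le_norm _) 2
    · intro x
      have h1 : (T F) (e.symm x) = if x = w then 1 else 0 := by
        rw [hF]
        by_cases hx : x = w
        · rw [hx, if_pos rfl, lp.single_apply_self]
        · rw [if_neg hx, lp.single_apply_ne]
          intro h; exact hx (e.symm.injective h)
      rw [hT, bdd_apply_real, bV_eq, Equiv.apply_symm_apply] at h1
      have h2 := congrArg Complex.re h1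
      rw [Complex.sub_re, Complex.re_ofReal_mul, Complex.re_sum] at h2
      unfold op
      rw [h2]
      split_ifs <;> simp
  set l₁ : L := (true, false) with hl₁
  refine ⟨?_, ?_⟩
  · intro t
    cases t
    · exact inj0
    · intro f hf h
      have h1 : ∀ x, op c β false (fun y => f (la l₁ y)) x = 0 := by
        intro x
        have := op_la (E := c) (β := β) true l₁ f x
        rw [h] at this
        exact this.symm
      have h2 := inj0 (fun y => f (la l₁ y)) (summable_la l₁ f hf) h1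
      intro x
      have := h2 (la l₁ x)
      simpa [la_la] using this
  · intro t
    cases t
    · exact ex0 root
    · obtain ⟨ψ, hs, hψ⟩ := ex0 (one l₁)
      refine ⟨fun y => ψ (la l₁ y), summable_la l₁ ψ hs, fun x => ?_⟩
      have := op_la (E := c) (β := β) false l₁ ψ x
      rw [hψ] at this
      have h2 : (xor false l₁.1) = true := rfl
      rw [h2] at this
      rw [← this]
      have h3 : la l₁ x = one l₁ ↔ x = root := by
        constructor
        · intro h
          rw [← la_la l₁ x, h, la_one_self]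
        · rintro rfl; exact la_root l₁
      simp only [h3]

theorem ordConnected (β : ℝ) (hβ0 : 0 < β) (hβ : β ≤ 1/4) : {x : ℝ | (x : ℂ) ∈ spectrum ℂ (Hop e β)}.OrdConnected := by
  refine ⟨fun a ha b hb c hc => ?_⟩
  by_contra hcn
  have R := res_of_not_mem e β c hcn
  obtain ⟨φ, hφ, h | h⟩ := super hβ0 hβ R
  · have h1 := upper e β hβ0.le c φ hφ h
    rw [ContinuousLinearMap.le_def] at h1
    have h2 := gen_upper _ (Hop_sa e β) c h1 _ hb
    rw [Complex.ofReal_re] at h2
    have : c = b := le_antisymm hc.2 h2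
    rw [this] at hcn
    exact hcn hb
  · have h1 := lower e β hβ0.le c φ hφ h
    rw [ContinuousLinearMap.le_def] at h1
    have h2 := gen_lower _ (Hop_sa e β) c h1 _ ha
    rw [Complex.ofReal_re] at h2
    have : c = a := le_antisymm h2 hc.1
    rw [this] at hcn
    exact hcn ha

theorem preconn (β : ℝ) (hβ0 : 0 < β) (hβ : β ≤ 1/4) : IsPreconnected (spectrum ℂ (Hop e β)) := by
  have h2 : spectrum ℂ (Hop e β) = (fun x : ℝ => (x : ℂ)) '' {x : ℝ | (x : ℂ) ∈ spectrum ℂ (Hop e β)} := by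
    ext z
    constructor
    · intro hz
      have hz1 : z = (z.re : ℂ) := (Hop_sa e β).mem_spectrum_eq_re hz
      refine ⟨z.re, ?_, hz1.symm⟩
      show ((z.re : ℝ) : ℂ) ∈ spectrum ℂ (Hop e β)
      rw [← hz1]; exact hz
    · rintro ⟨x, hx, rfl⟩
      exact hx
  rw [h2]
  exact (ordConnected e β hβ0 hβ).isPreconnected.image _ Complex.continuous_ofReal.continuousOn

end

end Pool.Agent.H0.Borg
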