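import Mathlib
import Pool.Agent.H0.Borg.Spec

set_option autoImplicit false

namespace Pool.Agent.H0.Borg

theorem rr_inj (l l' : L) (w : List L) (h : rr l w = rr l' w) : l = l' := by
  match w with
  | [] => simpa [rr] using h
  | [a] =>
    rw [rr_one, rr_one] at h
    by_cases h1 : a = l <;> by_cases h2 : a = l'
    · rw [← h1, h2]
    · rw [if_pos h1, if_neg h2] at h; simp at h
    · rw [if_neg h1, if_pos h2] at h; simp at h
    · rw [if_neg h1, if_neg h2] at h; simpa using h
  | a :: b :: t =>
    rw [rr_cons, rr_cons] at h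
    exact rr_inj l l' (b :: t) (List.cons.inj h).2

theorem exists_short (w : List L) (hw : w ≠ []) : ∃ l, (rr l w).length + 1 = w.length := by
  match w with
  | [] => exact absurd rfl hw
  | [a] => exact ⟨a, by simp [rr]⟩
  | a :: b :: t =>
    obtain ⟨l, hl⟩ := exists_short (b :: t) (by simp)
    refine ⟨l, ?_⟩
    rw [rr_cons]
    simp only [List.length_cons] at hl ⊢
    omega

/-- tree graph -/
def TG : SimpleGraph W where
  Adj x y := ∃ l, y = r l x
  symm := ⟨by
    rintro x y ⟨l, rfl⟩
    exact ⟨l, (r_r l x).symm⟩⟩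
  loopless := ⟨by
    rintro x ⟨l, h⟩
    have := len_r l x
    rw [← h] at this
    omega⟩

theorem closed_all (S : W → Prop) (hS : ∀ x l, S x → S (r l x)) (v : W) (hv : S v) : ∀ x, S x := by
  have down : ∀ n : ℕ, ∀ v, len v = n → S v → S root := by
    intro n
    induction n with
    | zero =>
      intro v h hv
      have : v = root := by
        obtain ⟨w, hw⟩ := v
        have : w = [] := List.length_eq_zero_iff.1 h
        subst this; rfl
      rwa [this] at hv
    | succ n ih =>
      intro v h hv
      obtain ⟨l, hl⟩ := exists_short v.1 (by intro h0; simp [len, h0] at h)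
      exact ih (r l v) (by have h1 : len (r l v) + 1 = len v := hl; omega) (hS v l hv)
  have h0 := down _ v rfl hv
  have up : ∀ n : ℕ, ∀ x, len x = n → S x := by
    intro n
    induction n with
    | zero =>
      intro v h
      have : v = root := by
        obtain ⟨w, hw⟩ := v
        have : w = [] := List.length_eq_zero_iff.1 h
        subst this; rfl
      rwa [this]
    | succ n ih =>
      intro v h
      obtain ⟨l, hl⟩ := exists_short v.1 (by intro h0; simp [len, h0] at h)
      have := hS (r l v) l (ih (r l v) (by have h1 : len (r l v) + 1 = len v := hl; omega))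
      rwa [r_r] at this
  exact fun x => up _ x rfl

def laE (l : L) : Equiv.Perm W := ⟨la l, la l, la_la l, la_la l⟩

def Lam (v : List L) : Equiv.Perm W := (v.map laE).prod

theorem Lam_nil (x : W) : Lam [] x = x := rfl
theorem Lam_cons (a : L) (v : List L) (x : W) : Lam (a :: v) x = la a (Lam v x) := by
  unfold Lam
  rw [List.map_cons, List.prod_cons]
  rfl

theorem Lam_r (v : List L) (l : L) (x : W) : Lam v (r l x) = r l (Lam v x) := by
  induction v with
  | nil => rfl
  | cons a v ih => rw [Lam_cons, Lam_cons, ih, r_la]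

theorem Lam_root (v : W) : Lam v.1 root = v := by
  obtain ⟨w, hw⟩ := v
  induction w with
  | nil => rfl
  | cons a v ih =>
    have hv : Red v := hw.tail
    have h1 := ih hv
    show Lam (a :: v) root = _
    rw [Lam_cons]
    have h1' : Lam v root = ⟨v, hv⟩ := h1
    rw [h1']
    apply Subtype.ext
    have hnot : (⟨v, hv⟩ : W) ∉ C a := by
      intro h
      have h' : v.head? = some a := h
      cases v with
      | nil => simp at h'
      | cons b t =>
        simp only [List.head?_cons, Option.some.injEq] at h'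
        simp only [Red, List.isChain_cons_cons] at hw
        exact hw.1 h'.symm
    exact la_cons hnot

theorem Lam_typ (v : List L) (x : W) : typ (Lam v x) = xor (ty v) (typ x) := by
  induction v with
  | nil => simp [Lam_nil, ty]
  | cons a v ih =>
    rw [Lam_cons, typ_la, ih]
    simp only [ty, List.foldr_cons]
    cases a.1 <;> simp

theorem Lam_symm_r (v : List L) (l : L) (x : W) : (Lam v).symm (r l x) = r l ((Lam v).symm x) := by
  rw [Equiv.symm_apply_eq, Lam_r, Equiv.apply_symm_apply]

theorem TG_tree : TG.IsTree := by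
  refine ⟨?_, ?_⟩
  · have hall : ∀ x, TG.Reachable root x := closed_all (fun x => TG.Reachable root x) (by
      intro x l hx
      refine hx.trans (SimpleGraph.Adj.reachable ?_)
      exact ⟨l, rfl⟩) root (SimpleGraph.Reachable.refl _)
    have : Nonempty W := ⟨root⟩
    exact SimpleGraph.Connected.mk (fun x y => (hall x).symm.trans (hall y))
  · rw [SimpleGraph.isAcyclic_iff_forall_adj_isBridge]
    rintro v w ⟨l, rfl⟩
    rw [SimpleGraph.isBridge_iff]
    intro hreach
    -- invariant set
    have key : ∀ x y, (TG \ SimpleGraph.fromEdgeSet {s(v, r l v)}).Adj x y →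
        (Lam v.1).symm x ∈ C l → (Lam v.1).symm y ∈ C l := by
      intro x y hxy hx
      rw [SimpleGraph.sdiff_adj, SimpleGraph.fromEdgeSet_adj] at hxy
      obtain ⟨⟨l', rfl⟩, hne⟩ := hxy
      rw [Lam_symm_r]
      rcases mem_C_r l' hx with h | ⟨h1, h2, h3⟩
      · exact h
      · exfalso
        apply hne
        have hx1 : x = r l v := by
          have : Lam v.1 ((Lam v.1).symm x) = Lam v.1 (one l) := by rw [h1]
          rw [Equiv.apply_symm_apply, ← r_root, Lam_r, Lam_root] at this
          exact this
        subst h2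
        rw [hx1, r_r]
        refine ⟨?_, ?_⟩
        · simp [Sym2.eq_swap]
        · intro h
          have h4 := len_r l' v
          rw [h] at h4
          omega
    have key2 : ∀ x y, (TG \ SimpleGraph.fromEdgeSet {s(v, r l v)}).Reachable x y →
        (Lam v.1).symm x ∈ C l → (Lam v.1).symm y ∈ C l := by
      rintro x y ⟨p⟩
      induction p with
      | nil => exact id
      | cons hadj _ ih => exact fun hx => ih (key _ _ hadj hx)
    have h1 := key2 _ _ hreach.symm (by
      rw [Lam_symm_r]
      have : (Lam v.1).symm v = root := by rw [Equiv.symm_apply_eq, Lam_root]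
      rw [this, r_root]
      exact one_mem l)
    have : (Lam v.1).symm v = root := by rw [Equiv.symm_apply_eq, Lam_root]
    rw [this] at h1
    exact root_not_mem l h1

noncomputable def nbE (v : W) : L ≃ TG.neighborSet v :=
  Equiv.ofBijective (fun l => ⟨r l v, ⟨l, rfl⟩⟩) ⟨by
    intro l l' h
    have h1 : r l v = r l' v := congrArg Subtype.val h
    exact rr_inj l l' v.1 (congrArg Subtype.val h1), by
    rintro ⟨y, l, rfl⟩
    exact ⟨l, rfl⟩⟩

theorem TG_card (v : W) : Nat.card (TG.neighborSet v) = 4 := by
  rw [← Nat.card_congr (nbE v)]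
  simp [Nat.card_eq_fintype_card]

/-- automorphism group -/
def Gam : Subgroup (TG ≃g TG) where
  carrier := {g | (∀ x l, g (r l x) = r l (g x)) ∧ ∀ x, typ (g x) = typ x}
  mul_mem' := by
    rintro a b ⟨ha1, ha2⟩ ⟨hb1, hb2⟩
    refine ⟨fun x l => ?_, fun x => ?_⟩
    · show a (b (r l x)) = r l (a (b x))
      rw [hb1, ha1]
    · show typ (a (b x)) = typ x
      rw [ha2, hb2]
  one_mem' := ⟨fun _ _ => rfl, fun _ => rfl⟩
  inv_mem' := by
    rintro a ⟨ha1, ha2⟩
    refine ⟨fun x l => ?_, fun x => ?_⟩
    · show a.symm (r l x) = r l (a.symm x)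
      rw [RelIso.symm_apply_eq, ha1, RelIso.apply_symm_apply]
    · show typ (a.symm x) = typ x
      rw [← ha2 (a.symm x), RelIso.apply_symm_apply]

def LamG (v : List L) : TG ≃g TG where
  toEquiv := Lam v
  map_rel_iff' := by
    intro x y
    constructor
    · rintro ⟨l, hl⟩
      refine ⟨l, ?_⟩
      have : Lam v y = r l (Lam v x) := hl
      rw [← Lam_r] at this
      exact (Lam v).injective this
    · rintro ⟨l, rfl⟩
      exact ⟨l, Lam_r v l x⟩

theorem LamG_mem (v : List L) (hv : ty v = false) : LamG v ∈ Gam := by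
  refine ⟨fun x l => Lam_r v l x, fun x => ?_⟩
  show typ (Lam v x) = typ x
  rw [Lam_typ, hv]; simp

theorem main3838 :
    ¬ (∀ (d : ℕ), 2 ≤ d → ∀ (V : Type) (T : SimpleGraph V), T.IsTree →
      (∀ v : V, Nat.card (T.neighborSet v) = d) →
      ∀ (Γ : Subgroup (T ≃g T)), (∀ g ∈ Γ, ∀ v : V, g v = v → g = 1) →
      (∃ S : Finset V, ∀ v : V, ∃ g ∈ Γ, ∃ s ∈ S, g s = v) →
      ∀ b : V → ℝ, (∀ g ∈ Γ, ∀ v : V, b (g v) = b v) →
      ∀ H : lp (fun _ : V => ℂ) 2 →L[ℂ] lp (fun _ : V => ℂ) 2,
        (∀ (f : lp (fun _ : V => ℂ) 2) (v : V),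
          (H f) v = (∑' w : T.neighborSet v, f (w : V)) + (b v : ℂ) * f v) →
        IsPreconnected (spectrum ℂ H) → ∀ v w : V, b v = b w) := by
  intro Hyp
  have h := Hyp 4 (by norm_num) W TG TG_tree TG_card Gam ?_ ?_ (bV (Equiv.refl W) (1/4)) ?_ (Hop (Equiv.refl W) (1/4)) ?_
    (preconn (Equiv.refl W) (1/4) (by norm_num) le_rfl) root (one (true, false))
  · have h1 : typ (one (true, false)) = true := by rw [← r_root, typ_r, typ_root]; rfl
    simp [bV, typ_root, h1] at h
  · rintro g ⟨hg1, hg2⟩ v hv
    have := closed_all (fun x => g x = x) (by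
      intro x l hx
      show g (r l x) = r l x
      rw [hg1, hx]) v hv
    exact RelIso.ext this
  · classical
    refine ⟨{root, one (true, false)}, fun v => ?_⟩
    cases hv : typ v
    · exact ⟨LamG v.1, LamG_mem v.1 hv, root, by simp, Lam_root v⟩
    · have h1 : typ (r (true, false) v) = false := by rw [typ_r, hv]; rfl
      refine ⟨LamG (r (true, false) v).1, LamG_mem _ h1, one (true, false), by simp, ?_⟩
      show Lam (r (true, false) v).1 (one (true, false)) = v
      rw [← r_root, Lam_r, Lam_root, r_r]
  · rintro g ⟨hg1, hg2⟩ v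
    show (if typ (g v) = true then (1/4:ℝ) else 0) = if typ v = true then 1/4 else 0
    simp only [hg2]
  · intro f v
    rw [Hop_apply, add_comm]
    congr 1
    · rw [← (nbE v).tsum_eq, tsum_fintype]
      rfl

end Pool.Agent.H0.Borg
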