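import Mathlib
import Pool.Agent.H0.Borg.Tree

set_option autoImplicit false

namespace Pool.Agent.H0.Borg

/-- vertices of the base graph: (type, copy) -/
abbrev BV := Bool × Bool
abbrev BD := BV × L

def stp (v : BV) (l : L) : BV := (xor v.1 l.1, !v.2)
theorem stp_stp (v : BV) (l : L) : stp (stp v l) l = v := by
  obtain ⟨a, b⟩ := v; obtain ⟨c, d⟩ := l
  cases a <;> cases b <;> cases c <;> rfl

def rev (d : BD) : BD := (stp d.1 d.2, d.2)
theorem rev_rev (d : BD) : rev (rev d) = d := by
  unfold rev; simp [stp_stp]
theorem rev_ne (d : BD) : rev d ≠ d := by
  intro h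
  have := congrArg (fun d : BD => d.1.2) h
  simp [rev, stp] at this

def path : BV → List L → List BD
  | _, [] => []
  | v, l :: w => (v, l) :: path (stp v l) w

def endp : BV → List L → BV
  | v, [] => v
  | v, l :: w => endp (stp v l) w

theorem path_snd (v : BV) (w : List L) : (path v w).map Prod.snd = w := by
  induction w generalizing v with
  | nil => rfl
  | cons l w ih => simp [path, ih]

theorem path_append (v : BV) (w : List L) (l : L) : path v (w ++ [l]) = path v w ++ [(endp v w, l)] := by
  induction w generalizing v with
  | nil => rfl
  | cons a w ih => simp [path, endp, ih]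

theorem endp_append (v : BV) (w : List L) (l : L) : endp v (w ++ [l]) = stp (endp v w) l := by
  induction w generalizing v with
  | nil => rfl
  | cons a w ih => simp [endp, ih]

theorem endp_fst (v : BV) (w : List L) : (endp v w).1 = xor v.1 (ty w) := by
  induction w generalizing v with
  | nil => simp [endp, ty]
  | cons a w ih =>
    simp only [endp, ih, ty, List.foldr_cons, stp]
    cases v.1 <;> cases a.1 <;> simp

def Good (v : BV) (x : List BD) : Prop :=
  (∀ d ∈ x.head?, d.1 = v) ∧ ∀ (i : ℕ) (d e : BD), x[i]? = some d → x[i+1]? = some e → (e.1 = (rev d).1 ∧ e ≠ rev d)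

theorem good_cons (v : BV) (d : BD) (x : List BD) :
    Good v (d :: x) ↔ d.1 = v ∧ Good (stp d.1 d.2) x ∧ ∀ e ∈ x.head?, e ≠ rev d := by
  unfold Good
  constructor
  · rintro ⟨h1, h2⟩
    refine ⟨h1 d (by simp), ⟨?_, ?_⟩, ?_⟩
    · intro e he
      have := h2 0 d e (by simp) (by cases x with
        | nil => simp at he
        | cons a t => simp at he; simp [he])
      exact this.1
    · intro i a b ha hb
      exact h2 (i+1) a b (by simpa using ha) (by simpa using hb)
    · intro e he
      have := h2 0 d e (by simp) (by cases x with
        | nil => simp at he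
        | cons a t => simp at he; simp [he])
      exact this.2
  · rintro ⟨h1, ⟨h2, h3⟩, h4⟩
    refine ⟨by intro e he; simp at he; rw [← he]; exact h1, ?_⟩
    intro i a b ha hb
    cases i with
    | zero =>
      simp at ha hb
      subst ha
      have hb' : b ∈ x.head? := by
        cases x with
        | nil => simp at hb
        | cons c t => simp at hb; simp [hb]
      exact ⟨h2 b hb', h4 b hb'⟩
    | succ i =>
      exact h3 i a b (by simpa using ha) (by simpa using hb)

theorem good_iff (v : BV) (x : List BD) : Good v x ↔ x = path v (x.map Prod.snd) ∧ Red (x.map Prod.snd) := by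
  induction x generalizing v with
  | nil => simp [Good, path]
  | cons d x ih =>
    rw [good_cons, ih]
    simp only [List.map_cons, path]
    constructor
    · rintro ⟨h1, ⟨h2, h3⟩, h4⟩
      refine ⟨?_, ?_⟩
      · rw [h1] at h2
        rw [← h2, ← h1]
      · cases x with
        | nil => simp
        | cons e t =>
          simp only [List.map_cons] at h3 ⊢
          rw [Red, List.isChain_cons_cons]
          refine ⟨?_, h3⟩
          intro hde
          apply h4 e (by simp)
          -- e = (stp d.1 d.2, e.2) = rev d
          have he : e.1 = stp d.1 d.2 := by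
            simp only [List.map_cons, path] at h2
            have := (List.cons.inj h2).1
            rw [this]
          unfold rev
          exact Prod.ext he hde.symm
    · rintro ⟨h1, h2⟩
      have h1a := (List.cons.inj h1).1
      have h1b := (List.cons.inj h1).2
      have hd : d.1 = v := by rw [h1a]
      refine ⟨hd, ⟨by rw [hd]; exact h1b, h2.tail⟩, ?_⟩
      intro e he hrev
      cases x with
      | nil => simp at he
      | cons a t =>
        simp at he
        subst he
        simp only [List.map_cons] at h2
        rw [Red, List.isChain_cons_cons] at h2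
        apply h2.1
        rw [hrev]; rfl

theorem rr_cases (l : L) (w : List L) : rr l w = w ++ [l] ∨ w = rr l w ++ [l] := by
  match w with
  | [] => left; rfl
  | [a] =>
    rw [rr_one]
    by_cases h : a = l
    · right; simp [h]
    · left; simp [h]
  | a :: b :: t =>
    rw [rr_cons]
    rcases rr_cases l (b :: t) with h | h
    · left; rw [h]; rfl
    · right
      rw [List.cons_append, ← h]

theorem not_red_append (w : List L) (l : L) : ¬ Red ((w ++ [l]) ++ [l]) := by
  induction w with
  | nil => simp
  | cons a w ih =>
    intro h
    exact ih h.tail

theorem rr_iff (l : L) (w u : List L) (hw : Red w) (hu : Red u) : rr l w = u ↔ (u = w ++ [l] ∨ w = u ++ [l]) := by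
  constructor
  · rintro rfl
    exact rr_cases l w
  · rintro (rfl | rfl)
    · rcases rr_cases l w with h | h
      · exact h
      · exfalso
        rw [h] at hu
        exact not_red_append _ _ hu
    · rcases rr_cases l u with h | h
      · rw [← h]; exact rr_rr l u hu
      · exfalso
        rw [h] at hw
        exact not_red_append _ _ hw

end Pool.Agent.H0.Borg
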