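import Mathlib
import Pool.Agent.H0.Borg.Cover

set_option autoImplicit false

namespace Pool.Agent.H0.Borg

def v0 : BV := (false, false)

theorem endpoint (v : BV) (w : List L) : (((path v w).getLast?.map (fun d => (rev d).1)).getD v) = endp v w := by
  rcases List.eq_nil_or_concat w with rfl | ⟨w', l, rfl⟩
  · rfl
  · rw [List.concat_eq_append, path_append, endp_append]
    simp [rev]

/-- the nonbacktracking paths are the words -/
def eS : {l : List BD | Good v0 l} ≃ W where
  toFun x := ⟨x.1.map Prod.snd, ((good_iff v0 x.1).1 x.2).2⟩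
  invFun w := ⟨path v0 w.1, (good_iff v0 _).2 ⟨by rw [path_snd], by rw [path_snd]; exact w.2⟩⟩
  left_inv := by
    intro x
    apply Subtype.ext
    exact ((good_iff v0 x.1).1 x.2).1.symm
  right_inv := by
    intro w
    apply Subtype.ext
    exact path_snd v0 w.1

theorem coeff (x y : {l : List BD | Good v0 l}) (l : L) :
    (∑ v : BV, if (y.1 = x.1 ++ [(v, l)] ∨ x.1 = y.1 ++ [(v, l)]) then (1:ℂ) else 0) =
      if y = eS.symm (r l (eS x)) then 1 else 0 := by
  have hx := ((good_iff v0 x.1).1 x.2)
  have hy := ((good_iff v0 y.1).1 y.2)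
  have hiff : y = eS.symm (r l (eS x)) ↔ (y.1.map Prod.snd = x.1.map Prod.snd ++ [l] ∨ x.1.map Prod.snd = y.1.map Prod.snd ++ [l]) := by
    rw [Equiv.eq_symm_apply, ← rr_iff l _ _ hx.2 hy.2]
    constructor
    · intro h
      exact (congrArg Subtype.val h).symm
    · intro h
      exact Subtype.ext h.symm
  by_cases h : y = eS.symm (r l (eS x))
  · rw [if_pos h]
    rcases hiff.1 h with h1 | h1
    · have h2 : y.1 = x.1 ++ [(endp v0 (x.1.map Prod.snd), l)] := by
        rw [hy.1, h1, path_append, ← hx.1]
      rw [Finset.sum_eq_single (endp v0 (x.1.map Prod.snd))]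
      · rw [if_pos (Or.inl h2)]
      · intro v _ hv
        rw [if_neg]
        rintro (h3 | h3)
        · rw [h2] at h3
          have := List.append_cancel_left h3
          simp at this
          exact hv this.symm
        · have h4 := congrArg List.length h3
          rw [h2] at h4
          simp at h4
      · simp
    · have h2 : x.1 = y.1 ++ [(endp v0 (y.1.map Prod.snd), l)] := by
        rw [hx.1, h1, path_append, ← hy.1]
      rw [Finset.sum_eq_single (endp v0 (y.1.map Prod.snd))]
      · rw [if_pos (Or.inr h2)]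
      · intro v _ hv
        rw [if_neg]
        rintro (h3 | h3)
        · have h4 := congrArg List.length h3
          rw [h2] at h4
          simp at h4
        · rw [h2] at h3
          have := List.append_cancel_left h3
          simp at this
          exact hv this.symm
      · simp
  · rw [if_neg h]
    apply Finset.sum_eq_zero
    intro v _
    rw [if_neg]
    rintro (h3 | h3)
    · apply h
      rw [hiff]
      left
      rw [h3]; simp
    · apply h
      rw [hiff]
      right
      rw [h3]; simp

theorem sum_formula (f : HS {l : List BD | Good v0 l}) (x : {l : List BD | Good v0 l}) :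
    ∑' y : {l : List BD | Good v0 l}, (∑ d : BD, if (y.1 = x.1 ++ [d] ∨ x.1 = y.1 ++ [d]) then (((1:ℝ)) : ℂ) else 0) * f y
      = ∑ l : L, f (eS.symm (r l (eS x))) := by
  have h1 : ∀ y : {l : List BD | Good v0 l}, (∑ d : BD, if (y.1 = x.1 ++ [d] ∨ x.1 = y.1 ++ [d]) then (((1:ℝ)) : ℂ) else 0) * f y
      = ∑ l : L, if y = eS.symm (r l (eS x)) then f (eS.symm (r l (eS x))) else 0 := by
    intro y
    rw [Fintype.sum_prod_type_right, Finset.sum_mul]
    refine Finset.sum_congr rfl fun l _ => ?_
    have := coeff x y l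
    push_cast
    rw [this]
    split_ifs with h
    · rw [one_mul, ← h]
    · rw [zero_mul]
  simp only [h1]
  rw [Summable.tsum_finsetSum]
  · refine Finset.sum_congr rfl fun l _ => ?_
    exact tsum_ite_eq _ _
  · intro l _
    exact (hasSum_ite_eq _ _).summable

theorem base_conn : (SimpleGraph.fromRel (fun u v : BV => ∃ d : BD, d.1 = u ∧ (rev d).1 = v)).Connected := by
  have hadj : ∀ (t t' c : Bool), (SimpleGraph.fromRel (fun u v : BV => ∃ d : BD, d.1 = u ∧ (rev d).1 = v)).Adj (t, c) (t', !c) := by
    intro t t' c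
    rw [SimpleGraph.fromRel_adj]
    refine ⟨by simp, Or.inl ⟨((t, c), (xor t t', false)), rfl, ?_⟩⟩
    simp [rev, stp]
  have : Nonempty BV := ⟨v0⟩
  refine SimpleGraph.Connected.mk ?_
  rintro ⟨t, c⟩ ⟨t', c'⟩
  by_cases h : c' = c
  · subst h
    have h1 := (hadj t t (c')).reachable
    have h2 := (hadj t t' (!c')).reachable
    rw [Bool.not_not] at h2
    exact h1.trans h2
  · have : c' = !c := by cases c <;> cases c' <;> simp_all
    subst this
    exact (hadj t t' c).reachable

theorem main3850 :
    ¬ (∀ (V D : Type) [Fintype V] [Fintype D] [DecidableEq D] (src : D → V) (rev : D → D),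
    (∀ d, rev (rev d) = d) → (∀ d, rev d ≠ d) →
    (SimpleGraph.fromRel (fun u v : V => ∃ d, src d = u ∧ src (rev d) = v)).Connected →
    ∀ (a : D → ℝ) (b : V → ℝ), (∀ d, 0 < a d) → (∀ d, a (rev d) = a d) →
    ∀ (v0 : V) (S : Set (List D)),
      (∀ l : List D, l ∈ S ↔ ((∀ d ∈ l.head?, src d = v0) ∧
         ∀ (i : ℕ) (d e : D), l[i]? = some d → l[i+1]? = some e →
           (src e = src (rev d) ∧ e ≠ rev d))) →
    ∀ H : lp (fun _ : S => ℂ) 2 →L[ℂ] lp (fun _ : S => ℂ) 2,
      (∀ (f : lp (fun _ : S => ℂ) 2) (x : S),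
        H f x = (b ((x.1.getLast?.map (fun d => src (rev d))).getD v0) : ℂ) * f x +
          ∑' y : S, (∑ d : D, if (y.1 = x.1 ++ [d] ∨ x.1 = y.1 ++ [d]) then (a d : ℂ) else 0) * f y) →
      IsPreconnected (spectrum ℂ H) → ∀ u v : V, b u = b v) := by
  intro Hyp
  have h := Hyp BV BD Prod.fst rev rev_rev rev_ne base_conn (fun _ => 1) (fun u => if u.1 then 1/4 else 0)
    (by intro d; norm_num) (by intro d; rfl) v0 {l : List BD | Good v0 l} (by intro l; rfl) (Hop eS (1/4)) ?_
    (preconn eS (1/4) (by norm_num) le_rfl) (false, false) (true, false)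
  · norm_num at h
  · intro f x
    rw [Hop_apply]
    have h1 : ((x.1.getLast?.map (fun d => (rev d).1)).getD v0) = endp v0 (x.1.map Prod.snd) := by
      have hx := ((good_iff v0 x.1).1 x.2).1
      conv_lhs => rw [hx]
      exact endpoint v0 _
    have h2 : (endp v0 (x.1.map Prod.snd)).1 = typ (eS x) := by
      rw [endp_fst]
      simp [v0]
      rfl
    congr 1
    · rw [h1]
      simp only [h2]
    · exact (sum_formula f x).symm

end Pool.Agent.H0.Borg
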